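import Pool.Agent.K3h76.UC.Final

set_option autoImplicit false

/-!
# MP_eba1ef_gt: sums of extreme points with the body; intersections of balls

Let `A` be a convex body in a Euclidean space of dimension `d`, symmetric or not, let `B` be any
nonempty compact convex set, and let `c(K)` be the least number of translates of the interior of `K`
which cover `K`.  All bounds are for `c(A + B)`, for instance (`B = {0}`) for `c(A)`.

1. Criterion. Let `S` be a set such that for every extreme point `x` of `A` the sum `x + u` is in `S`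
   for at least the part `θ` of the points `u` of `A`.  Then
   `c(A + B) ≤ 1 + 8 θ⁻² (vol S / vol A) d log (1 + 4 d (d + 1) / θ)`.
   (For `S = 2 A` and `θ = 1` this is, up to the constant, the bound `2^d O(d log d)` for all
   bodies.)
2. `c(A + B) ≤ 1 + 8 (vol (ext A + A) / vol A) d log (1 + 4 d (d + 1))`.
3. Volume in a ball. Let `A` be contained in a ball of radius `R`, let `m` be the mean square distance
   of the points of `A` from the centroid, and `ρ² = R² + m` (so `ρ² ≤ 2 R²`).  Then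
   `c(A + B) ≤ 1 + 14 (d + 1)² (vol (ρ-ball) / vol A) d log (1 + 4 d (d + 1)²)`.  So `c(A + B) < 2^d`
   if `vol A ≥ 2^(-d/2) 15 (d + 1)² d log (1 + 4 d (d + 1)²) vol (R-ball)`.
4. Modulus of convexity. Let `L` be a convex body with `vol A = v^d vol L`, and `2 s^d ≤ v^d`, and
   suppose that `(x + u)/2 + δ L ⊆ A` for all extreme points `x` and all points `u` of `A` with
   `x - u ∉ s L`.  Then `c(A + B) ≤ 1 + 32 (2 (1 - δ/v))^d d log (1 + 8 d (d + 1))`.
5. Let the gauge `g` of `L` be `q`-uniformly convex with constant `c`, that is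
   `g((x + y)/2)^q + c g((x - y)/2)^q ≤ (g(x)^q + g(y)^q)/2`, let `A` be an intersection of
   (arbitrarily many) translates of dilates `r L`, `r ≤ 1`, and `vol A ≥ v^d vol L`.  Then
   `c(A + B) ≤ 1 + 32 · 2^d exp (-c (d - q) v^(q-1) / (q 2^q)) d log (1 + 8 d (d + 1))`.
6. In particular let `A` be an intersection of balls of radius at most `R`, and
   `vol A ≥ v^d vol (R-ball)`.  Then
   `c(A + B) ≤ 1 + 32 · 2^d exp (-(d - 2) v / 8) d log (1 + 8 d (d + 1))`, and `c(A + B) < 2^d` if
   `33 d log (1 + 8 d (d + 1)) ≤ exp ((d - 2) v / 8)`, `d ≥ 6`.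

So the conjecture is true, with strict inequality, for all intersections of congruent balls (spindle
convex bodies) of radius `R` whose volume radius is at least `C R log d / d`, and for all convex
bodies with such a summand.  (For the *fat* spindle convex bodies, which contain the centres of the
balls, see Schramm, Bezdek.)

Proof of the criterion. As for `AllConvexBodies`: let `x, x'` be independent random points of a finite
set `X` of extreme points. The mean volume of `(x - A) ∩ (x' - A)`, which is the integral of the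
squares of the shares of `X` in the translates `y + A`, is equal to the mean volume of
`(x + A) ∩ (x' + A)`, and by the Cauchy-Schwarz inequality on `S` this is at least
`θ² (vol A)² / vol S`. So some translate of `A` contains the share `θ² vol A / vol S` of `X`. The
greedy choice of translates covers a net in the set of extreme points. The translates which cover
the extreme points of `A` give directions which illuminate `A + B`. For (3), `S` is a ball of
radius `(1 + 1/d)^(1/2) ρ` (second moments and Markov's inequality). For (4), the points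
`x + u` lie in `2 N`, where `N + δ L ⊆ A`, except for the points `u` of `x - s L`, and the volume of
`N` is bounded by the Brunn-Minkowski inequality.
-/

open MeasureTheory Module Set
open scoped Pointwise

namespace Pool.Agent.Results.MP_eba1ef_gt.ExtremePointSums

variable {E : Type*} [NormedAddCommGroup E]

/-- `K` is covered by at most `N` translates of its interior. -/
def CoveredBy (N : ℝ) (K : Set E) : Prop :=
  ∃ T : Finset E, (T.card : ℝ) ≤ N ∧ K ⊆ ⋃ t ∈ T, (fun x => t + x) '' interior K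

/-- `K` is covered by less than `N` translates of its interior. -/
def CoveredByLess (N : ℕ) (K : Set E) : Prop :=
  ∃ T : Finset E, T.card < N ∧ K ⊆ ⋃ t ∈ T, (fun x => t + x) '' interior K

/-- `A` is the intersection of a nonempty family of sets `p + r L` with `0 < r ≤ R`. -/
def IsIntersection [Module ℝ E] (L : Set E) (R : ℝ) (A : Set E) : Prop :=
  ∃ P : Set (E × ℝ), P.Nonempty ∧ (∀ c ∈ P, 0 < c.2 ∧ c.2 ≤ R) ∧
    A = ⋂ c ∈ P, {y | y - c.1 ∈ c.2 • L}

/-- `A` is the intersection of a nonempty family of balls of radius at most `R`. -/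
def IsBallIntersection (R : ℝ) (A : Set E) : Prop :=
  ∃ P : Set (E × ℝ), P.Nonempty ∧ (∀ c ∈ P, 0 < c.2 ∧ c.2 ≤ R) ∧
    A = ⋂ c ∈ P, Metric.closedBall c.1 c.2

variable [InnerProductSpace ℝ E] [FiniteDimensional ℝ E]
  [MeasurableSpace E] [BorelSpace E] (μ : Measure E) [μ.IsAddHaarMeasure]

theorem result (d : ℕ) (hd : finrank ℝ E = d) (hd1 : 1 ≤ d) (A B : Set E)
    (hA : Convex ℝ A) (hAc : IsCompact A) (hAi : (interior A).Nonempty)
    (hB : Convex ℝ B) (hBc : IsCompact B) (hBn : B.Nonempty) :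
    -- 1. the criterion
    (∀ (S : Set E) (θ : ℝ), MeasurableSet S → μ S ≠ ⊤ → 0 < θ → θ ≤ 1 →
      (∀ x ∈ A.extremePoints ℝ, θ * μ.real A ≤ μ.real (A ∩ {u | x + u ∈ S})) →
      CoveredBy (1 + 8 / θ ^ 2 * (μ.real S / μ.real A) *
        (d * Real.log (1 + 4 * d * (d + 1) / θ))) (A + B)) ∧
    -- 2. the sum of the body and its extreme points
    CoveredBy (1 + 8 * (μ.real (A.extremePoints ℝ + A) / μ.real A) *
      (d * Real.log (1 + 4 * d * (d + 1)))) (A + B) ∧
    -- 3. bodies in a ball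
    (∀ (c g : E) (R ρ : ℝ), 0 < ρ → A ⊆ Metric.closedBall c R →
      ∫ u in A, u ∂μ = μ.real A • g →
      R ^ 2 * μ.real A + ∫ u in A, ‖u - g‖ ^ 2 ∂μ ≤ ρ ^ 2 * μ.real A →
      CoveredBy (1 + 14 * (d + 1) ^ 2 * (μ.real (Metric.closedBall (0 : E) ρ) / μ.real A) *
        (d * Real.log (1 + 4 * d * (d + 1) ^ 2))) (A + B)) ∧
    (∀ (c : E) (R : ℝ), A ⊆ Metric.closedBall c R →
      15 * (d + 1) ^ 2 * (d * Real.log (1 + 4 * d * (d + 1) ^ 2)) *
        μ.real (Metric.closedBall (0 : E) R) ≤ Real.sqrt 2 ^ d * μ.real A →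
      CoveredByLess (2 ^ d) (A + B)) ∧
    -- 4. modulus of convexity
    (∀ (L : Set E) (s δ v : ℝ), IsCompact L → (interior L).Nonempty → 0 < s → 0 < δ → 0 < v →
      μ.real A = v ^ d * μ.real L → 2 * s ^ d ≤ v ^ d →
      (∀ x ∈ A.extremePoints ℝ, ∀ u ∈ A, x - u ∉ s • L →
        ∀ w ∈ L, (1 / 2 : ℝ) • (x + u) + δ • w ∈ A) →
      δ ≤ v ∧ CoveredBy (1 + 32 * (2 * (1 - δ / v)) ^ d *
        (d * Real.log (1 + 8 * d * (d + 1)))) (A + B)) ∧
    -- 5. intersections of translates of uniformly convex bodies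
    (∀ (L : Set E) (q c v : ℝ), Convex ℝ L → IsCompact L → (0 : E) ∈ interior L → 1 ≤ q → 0 < c →
      (∀ x y, gauge L ((1 / 2 : ℝ) • (x + y)) ^ q + c * gauge L ((1 / 2 : ℝ) • (x - y)) ^ q ≤
        (gauge L x ^ q + gauge L y ^ q) / 2) →
      2 ≤ d → q ≤ d → 0 < v → IsIntersection L 1 A → v ^ d * μ.real L ≤ μ.real A →
      CoveredBy (1 + 32 * (2 ^ d * Real.exp (-(c / (q * 2 ^ q) * (d - q) * v ^ (q - 1)))) *
        (d * Real.log (1 + 8 * d * (d + 1)))) (A + B) ∧
      (6 ≤ d → 33 * (d * Real.log (1 + 8 * d * (d + 1))) ≤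
        Real.exp (c / (q * 2 ^ q) * (d - q) * v ^ (q - 1)) → CoveredByLess (2 ^ d) (A + B))) ∧
    -- 6. intersections of balls
    (∀ R v : ℝ, 0 < R → 2 ≤ d → 0 < v → IsBallIntersection R A →
      v ^ d * μ.real (Metric.closedBall (0 : E) R) ≤ μ.real A →
      CoveredBy (1 + 32 * (2 ^ d * Real.exp (-((d - 2) * v / 8))) *
        (d * Real.log (1 + 8 * d * (d + 1)))) (A + B) ∧
      (6 ≤ d → 33 * (d * Real.log (1 + 8 * d * (d + 1))) ≤ Real.exp ((d - 2) * v / 8) →
        CoveredByLess (2 ^ d) (A + B))) := by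
  refine ⟨?_, ?_, ?_, ?_, ?_, ?_, ?_⟩
  · intro S θ hS hSf hθ hθ1 h
    obtain ⟨T, hT, hcard⟩ := Pool.Agent.K3h76.UC.crit μ A B hA hAc hAi hB hBc hBn d hd hd1 S hS hSf θ
      hθ hθ1 h
    exact ⟨T, hcard, hT⟩
  · obtain ⟨T, hT, hcard⟩ := Pool.Agent.K3h76.UC.ext_crit μ A B hA hAc hAi hB hBc hBn d hd hd1
    exact ⟨T, hcard, hT⟩
  · intro c g R ρ hρ hAR hg hm
    obtain ⟨T, hT, hcard⟩ := Pool.Agent.K3h76.UC.ball_crit μ A B hA hAc hAi hB hBc hBn d hd hd1 c g R
      ρ hρ hAR hg hm
    exact ⟨T, hcard, hT⟩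
  · intro c R hAR hvol
    obtain ⟨T, hT, hcard⟩ := Pool.Agent.K3h76.UC.ball_thr μ A B hA hAc hAi hB hBc hBn d hd hd1 c R
      hAR hvol
    exact ⟨T, hcard, hT⟩
  · intro L s δ v hLc hLn hs hδ hv hvol h2 hmid
    obtain ⟨h1, T, hT, hcard⟩ := Pool.Agent.K3h76.UC.mid_crit μ A B hA hAc hAi hB hBc hBn d hd hd1 L
      hLc hLn s δ v hs hδ hv hvol h2 hmid
    exact ⟨h1, T, hcard, hT⟩
  · intro L q c v hL hLc hL0 hq hc hineq hd2 hqd hv hint hvol
    obtain ⟨P, hP, hPR, hAP⟩ := hint
    haveI : Nonempty P := hP.to_subtype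
    obtain ⟨T, hT, hcard⟩ := Pool.Agent.K3h76.UC.uc_inter μ L hL hLc hL0 q c hq hc hineq (ι := P)
      (fun c => c.1.1) (fun c => c.1.2) (fun c => hPR c.1 c.2) A B
      (by rw [hAP, Set.biInter_eq_iInter]) hAi hB hBc hBn d hd hd2 hqd v hv hvol
    exact ⟨⟨T, hcard, hT⟩, fun h6 hX => ⟨T, Pool.Agent.K3h76.UC.thr d T.card h6 _ hcard hX, hT⟩⟩
  · intro R v hR hd2 hv hint hvol
    obtain ⟨P, hP, hPR, hAP⟩ := hint
    obtain ⟨T, hT, hcard⟩ := Pool.Agent.K3h76.UC.balls μ P hP R hR hPR A B hAP hAi hB hBc hBn d hd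
      hd2 v hv hvol
    exact ⟨⟨T, hcard, hT⟩, fun h6 hX => ⟨T, Pool.Agent.K3h76.UC.thr d T.card h6 _ hcard hX, hT⟩⟩

end Pool.Agent.Results.MP_eba1ef_gt.ExtremePointSums
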